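
import Pool.Agent.Helper79.PK.Defs

/-!
# Counting lattice points in a square (block PK-L)
-/

namespace Pool.Agent.Helper79.PK

open MeasureTheory Set

/-- PK-L. Counting lattice points in a square. -/
theorem lattice_count {w0 w2 t ℓ : ℝ} (hw0 : 0 < w0) (hw2 : 0 < w2) (ht : 0 ≤ t)
    (ht0 : t ≤ w0) (ht2 : t ≤ w2) (hD : 0 < w0 * w2 - t ^ 2) (h0 : w0 ≤ 2) (h2 : w2 ≤ 2)
    (hℓ : 6 ≤ ℓ) :
    ∃ T : Finset (ℤ × ℤ), (ℓ - 6) ^ 2 ≤ (T.card : ℝ) * (w0 * w2 - t ^ 2) ∧
      ∀ p ∈ T, 0 ≤ (p.1 : ℝ) * w0 - p.2 * t ∧ (p.1 : ℝ) * w0 - p.2 * t ≤ ℓ - 2 ∧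
        0 ≤ -(p.1 : ℝ) * t + p.2 * w2 ∧ -(p.1 : ℝ) * t + p.2 * w2 ≤ ℓ - 2 := by
  classical
  set D : ℝ := w0 * w2 - t ^ 2 with hDdef
  -- the linear map
  let A : Matrix (Fin 2) (Fin 2) ℝ := !![w0, -t; -t, w2]
  have hdet : A.det = D := by
    simp only [A, Matrix.det_fin_two_of]
    rw [hDdef]; ring
  let Q : Set (Fin 2 → ℝ) := Set.univ.pi fun _ => Set.Ico (0 : ℝ) 1
  let F : Set (Fin 2 → ℝ) := (Matrix.toLin' A) '' Q
  have hQ : volume Q = 1 := by
    simp [Q, Real.volume_pi_Ico]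
  have hF : volume F = ENNReal.ofReal D := by
    simp only [F]
    rw [Measure.addHaar_image_linearMap, hQ, mul_one, LinearMap.det_toLin', hdet, abs_of_pos hD]
  let S : Set (Fin 2 → ℝ) := Set.Icc (fun _ => (2 : ℝ)) (fun _ => ℓ - 4)
  have hS : volume S = ENNReal.ofReal ((ℓ - 6) ^ 2) := by
    simp only [S]
    rw [Real.volume_Icc_pi]
    simp only [Fin.prod_univ_two]
    rw [← ENNReal.ofReal_mul (by linarith)]
    congr 1; ring
  -- the lattice points
  obtain ⟨N, hN⟩ : ∃ N : ℤ, 4 * (ℓ - 2) / D ≤ (N : ℝ) := ⟨⌈4 * (ℓ - 2) / D⌉, Int.le_ceil _⟩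
  have hN' : 4 * (ℓ - 2) ≤ (N : ℝ) * D := by
    rwa [div_le_iff₀ hD] at hN
  let T : Finset (ℤ × ℤ) := (Finset.Icc (0 : ℤ) N ×ˢ Finset.Icc (0 : ℤ) N).filter fun p =>
    0 ≤ (p.1 : ℝ) * w0 - p.2 * t ∧ (p.1 : ℝ) * w0 - p.2 * t ≤ ℓ - 2 ∧
        0 ≤ -(p.1 : ℝ) * t + p.2 * w2 ∧ -(p.1 : ℝ) * t + p.2 * w2 ≤ ℓ - 2
  have hT : ∀ p : ℤ × ℤ, (0 ≤ (p.1 : ℝ) * w0 - p.2 * t ∧ (p.1 : ℝ) * w0 - p.2 * t ≤ ℓ - 2 ∧
        0 ≤ -(p.1 : ℝ) * t + p.2 * w2 ∧ -(p.1 : ℝ) * t + p.2 * w2 ≤ ℓ - 2) → p ∈ T := by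
    intro p hp
    obtain ⟨ha, hb, hc, hd⟩ := hp
    have e1 : (p.1 : ℝ) * D = w2 * ((p.1 : ℝ) * w0 - p.2 * t) + t * (-(p.1 : ℝ) * t + p.2 * w2) := by
      rw [hDdef]; ring
    have e2 : (p.2 : ℝ) * D = t * ((p.1 : ℝ) * w0 - p.2 * t) + w0 * (-(p.1 : ℝ) * t + p.2 * w2) := by
      rw [hDdef]; ring
    have hx1 : 0 ≤ (p.1 : ℝ) * D := by
      rw [e1]; positivity
    have hx2 : 0 ≤ (p.2 : ℝ) * D := by
      rw [e2]; positivity
    have hy1 : (p.1 : ℝ) * D ≤ N * D := by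
      have q1 : w2 * ((p.1 : ℝ) * w0 - p.2 * t) ≤ 2 * (ℓ - 2) :=
        mul_le_mul h2 hb ha (by norm_num)
      have q2 : t * (-(p.1 : ℝ) * t + p.2 * w2) ≤ 2 * (ℓ - 2) :=
        mul_le_mul (by linarith) hd hc (by norm_num)
      rw [e1]; linarith
    have hy2 : (p.2 : ℝ) * D ≤ N * D := by
      have q1 : t * ((p.1 : ℝ) * w0 - p.2 * t) ≤ 2 * (ℓ - 2) :=
        mul_le_mul (by linarith) hb ha (by norm_num)
      have q2 : w0 * (-(p.1 : ℝ) * t + p.2 * w2) ≤ 2 * (ℓ - 2) :=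
        mul_le_mul h0 hd hc (by norm_num)
      rw [e2]; linarith
    have r1 : (0 : ℤ) ≤ p.1 := by
      have : (0 : ℝ) ≤ (p.1 : ℝ) := nonneg_of_mul_nonneg_left hx1 hD
      exact_mod_cast this
    have r2 : (0 : ℤ) ≤ p.2 := by
      have : (0 : ℝ) ≤ (p.2 : ℝ) := nonneg_of_mul_nonneg_left hx2 hD
      exact_mod_cast this
    have r3 : p.1 ≤ N := by
      have : (p.1 : ℝ) ≤ (N : ℝ) := le_of_mul_le_mul_right hy1 hD
      exact_mod_cast this
    have r4 : p.2 ≤ N := by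
      have : (p.2 : ℝ) ≤ (N : ℝ) := le_of_mul_le_mul_right hy2 hD
      exact_mod_cast this
    simp only [T, Finset.mem_filter, Finset.mem_product, Finset.mem_Icc]
    exact ⟨⟨⟨r1, r3⟩, ⟨r2, r4⟩⟩, ha, hb, hc, hd⟩
  refine ⟨T, ?_, ?_⟩
  · -- the area estimate
    let v : ℤ × ℤ → (Fin 2 → ℝ) := fun p => Matrix.toLin' A ![(p.1 : ℝ), (p.2 : ℝ)]
    have hcov : S ⊆ ⋃ p ∈ T, (fun x => v p + x) '' F := by
      intro s hs
      have hs0 : 2 ≤ s 0 ∧ s 0 ≤ ℓ - 4 := ⟨hs.1 0, hs.2 0⟩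
      have hs1 : 2 ≤ s 1 ∧ s 1 ≤ ℓ - 4 := ⟨hs.1 1, hs.2 1⟩
      set x : ℝ := (w2 * s 0 + t * s 1) / D with hx
      set y : ℝ := (t * s 0 + w0 * s 1) / D with hy
      have hDne : D ≠ 0 := hD.ne'
      have g0 : x * w0 - y * t = s 0 := by
        rw [hx, hy]; field_simp; rw [hDdef]; ring
      have g1 : -x * t + y * w2 = s 1 := by
        rw [hx, hy]; field_simp; rw [hDdef]; ring
      have hfx0 := Int.fract_nonneg x
      have hfx1 := Int.fract_lt_one x
      have hfy0 := Int.fract_nonneg y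
      have hfy1 := Int.fract_lt_one y
      have ex : ((⌊x⌋ : ℤ) : ℝ) = x - Int.fract x := by
        have := Int.floor_add_fract x; linarith
      have ey : ((⌊y⌋ : ℤ) : ℝ) = y - Int.fract y := by
        have := Int.floor_add_fract y; linarith
      have b1 : 0 ≤ Int.fract x * w0 := mul_nonneg hfx0 hw0.le
      have b2 : Int.fract x * w0 ≤ 2 := by
        calc Int.fract x * w0 ≤ 1 * 2 := mul_le_mul hfx1.le h0 hw0.le (by norm_num)
          _ = 2 := by norm_num
      have b3 : 0 ≤ Int.fract y * t := mul_nonneg hfy0 ht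
      have b4 : Int.fract y * t ≤ 2 := by
        calc Int.fract y * t ≤ 1 * 2 := mul_le_mul hfy1.le (by linarith) ht (by norm_num)
          _ = 2 := by norm_num
      have b5 : 0 ≤ Int.fract x * t := mul_nonneg hfx0 ht
      have b6 : Int.fract x * t ≤ 2 := by
        calc Int.fract x * t ≤ 1 * 2 := mul_le_mul hfx1.le (by linarith) ht (by norm_num)
          _ = 2 := by norm_num
      have b7 : 0 ≤ Int.fract y * w2 := mul_nonneg hfy0 hw2.le
      have b8 : Int.fract y * w2 ≤ 2 := by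
        calc Int.fract y * w2 ≤ 1 * 2 := mul_le_mul hfy1.le h2 hw2.le (by norm_num)
          _ = 2 := by norm_num
      refine Set.mem_iUnion₂.2 ⟨(⌊x⌋, ⌊y⌋), hT _ ?_, ?_⟩
      · simp only
        rw [ex, ey]
        refine ⟨?_, ?_, ?_, ?_⟩
        · have : (x - Int.fract x) * w0 - (y - Int.fract y) * t
              = s 0 - Int.fract x * w0 + Int.fract y * t := by rw [← g0]; ring
          rw [this]; linarith
        · have : (x - Int.fract x) * w0 - (y - Int.fract y) * t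
              = s 0 - Int.fract x * w0 + Int.fract y * t := by rw [← g0]; ring
          rw [this]; linarith
        · have : -(x - Int.fract x) * t + (y - Int.fract y) * w2
              = s 1 + Int.fract x * t - Int.fract y * w2 := by rw [← g1]; ring
          rw [this]; linarith
        · have : -(x - Int.fract x) * t + (y - Int.fract y) * w2
              = s 1 + Int.fract x * t - Int.fract y * w2 := by rw [← g1]; ring
          rw [this]; linarith
      · refine ⟨Matrix.toLin' A ![Int.fract x, Int.fract y], ⟨![Int.fract x, Int.fract y], ?_, rfl⟩, ?_⟩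
        · simp only [Q, Set.mem_univ_pi]
          intro i
          fin_cases i
          · exact ⟨hfx0, hfx1⟩
          · exact ⟨hfy0, hfy1⟩
        · simp only [v]
          rw [← map_add]
          have : (![((⌊x⌋ : ℤ) : ℝ), ((⌊y⌋ : ℤ) : ℝ)] + ![Int.fract x, Int.fract y] : Fin 2 → ℝ)
              = ![x, y] := by
            ext i
            fin_cases i
            · simp
            · simp
          rw [this, Matrix.toLin'_apply]
          ext i
          fin_cases i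
          · simp only [A, Matrix.mulVec, dotProduct, Fin.sum_univ_two, Fin.zero_eta, Matrix.of_apply,
              Matrix.cons_val_zero, Matrix.cons_val_one]
            rw [← g0]; simp; ring
          · simp only [A, Matrix.mulVec, dotProduct, Fin.sum_univ_two, Fin.mk_one, Matrix.of_apply,
              Matrix.cons_val_zero, Matrix.cons_val_one]
            rw [← g1]; simp; ring
    have hle : volume S ≤ (T.card : ENNReal) * ENNReal.ofReal D := by
      calc volume S ≤ volume (⋃ p ∈ T, (fun x => v p + x) '' F) := measure_mono hcov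
        _ ≤ ∑ p ∈ T, volume ((fun x => v p + x) '' F) := measure_biUnion_finset_le _ _
        _ = ∑ p ∈ T, ENNReal.ofReal D := by
            refine Finset.sum_congr rfl fun p _ => ?_
            rw [Set.image_add_left, measure_preimage_add, hF]
        _ = (T.card : ENNReal) * ENNReal.ofReal D := by
            rw [Finset.sum_const, nsmul_eq_mul]
    rw [hS] at hle
    have e : (T.card : ENNReal) * ENNReal.ofReal D = ENNReal.ofReal ((T.card : ℝ) * D) := by
      rw [ENNReal.ofReal_mul (by positivity), ENNReal.ofReal_natCast]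
    rw [e] at hle
    exact (ENNReal.ofReal_le_ofReal_iff (by positivity)).1 hle
  · intro p hp
    simp only [T, Finset.mem_filter] at hp
    exact hp.2

end Pool.Agent.Helper79.PK
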